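import Pool.Agent.H73.OX.LAS
import Pool.Agent.H70.UN.Targets2

/-!
# Row LASA of `uni_modules` (helper73, MP_c62aed_lc): positivity along families of sets
-/

namespace Pool.Agent.H70.UN

open Finset Pool.Agent.H1.LP Pool.Agent.H96.KX Pool.Agent.H73.OX

/-- a function of the coordinates in `T` is a combination of characters with support in `T` -/
theorem four_sub73 {p B : ℕ} [hp : Fact p.Prime] (f : (Fin B → ZMod p) → ℝ) (T : Finset (Fin B))
    (hf : ∀ z z' : Fin B → ZMod p, (∀ i ∈ T, z i = z' i) → f z = f z') :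
    ∃ c : (Fin B → ZMod p) → ℂ, (∀ l, c l ≠ 0 → supp l ⊆ T) ∧
      ∀ z, ((f z : ℝ) : ℂ) = ∑ l, c l * ch l z := by
  have hpB : ((p : ℂ) ^ B) ≠ 0 := pow_ne_zero _ (Nat.cast_ne_zero.mpr hp.out.ne_zero)
  refine ⟨fun l => ((p : ℂ) ^ B)⁻¹ * ∑ z, (f z : ℂ) * ch (-l) z, ?_, ?_⟩
  · intro l hl i hi
    by_contra hiT
    apply hl
    have hli : l i ≠ 0 := by simpa [supp] using hi
    have h1 : ∑ z, (f z : ℂ) * ch (-l) z =
        ch (-l) (Pi.single i 1) * ∑ z, (f z : ℂ) * ch (-l) z := by
      rw [mul_sum]
      rw [← Equiv.sum_comp (Equiv.addRight (Pi.single i (1 : ZMod p)))]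
      refine sum_congr rfl fun z _ => ?_
      have hfz : f (z + Pi.single i 1) = f z := by
        apply hf
        intro j hj
        have hji : j ≠ i := by rintro rfl; exact hiT hj
        simp [Pi.single_eq_of_ne hji]
      rw [Equiv.coe_addRight, hfz, ch_add_right]
      ring
    have h2 : ch (-l) (Pi.single i 1) ≠ 1 := by
      unfold ch
      rw [ip_single, mul_one]
      exact std_ne _ (by simpa using hli)
    have h3 : (ch (-l) (Pi.single i 1) - 1) * ∑ z, (f z : ℂ) * ch (-l) z = 0 := by
      rw [sub_mul, one_mul, ← h1, sub_self]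
    rcases mul_eq_zero.mp h3 with h4 | h4
    · exact absurd (sub_eq_zero.mp h4) h2
    · simp only [h4, mul_zero]
  · intro z
    have h1 : ∀ w : Fin B → ZMod p, ∑ l : Fin B → ZMod p, ch (-l) w * ch l z =
        if w = z then (p : ℂ) ^ B else 0 := by
      intro w
      have h2 : ∀ l : Fin B → ZMod p, ch (-l) w * ch l z = ch (z - w) l := by
        intro l
        unfold ch
        rw [← AddChar.map_add_eq_mul, ip_neg_left, ip_comm (z - w) l]
        congr 1
        have : ip l z = ip l (z - w) + ip l w := by rw [← ip_add_right, sub_add_cancel]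
        rw [this]
        ring
      simp only [h2]
      rw [sum_ch]
      by_cases hw : w = z
      · simp [hw]
      · have : z - w ≠ 0 := fun h => hw (sub_eq_zero.mp h).symm
        simp [hw, this]
    calc ((f z : ℝ) : ℂ) = ((p : ℂ) ^ B)⁻¹ * ∑ w, (f w : ℂ) * (if w = z then (p : ℂ) ^ B else 0) := by
          simp only [mul_ite, mul_zero, sum_ite_eq', mem_univ, if_true]
          field_simp
      _ = ((p : ℂ) ^ B)⁻¹ * ∑ w, (f w : ℂ) * ∑ l : Fin B → ZMod p, ch (-l) w * ch l z := by
          simp only [h1]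
      _ = ∑ l, (((p : ℂ) ^ B)⁻¹ * ∑ w, (f w : ℂ) * ch (-l) w) * ch l z := by
          simp only [mul_sum, sum_mul]
          rw [sum_comm]
          refine sum_congr rfl fun l _ => sum_congr rfl fun w _ => ?_
          ring

/-- positivity on squares of combinations of characters whose differences have small support -/
theorem las_gen73 (p B d : ℕ) [hp : Fact p.Prime] (S : Loc p B d) (V : Finset (Fin B → ZMod p))
    (hsup : ∀ x ∈ V, ∀ y ∈ V, (supp (y - x)).card ≤ d) (c : (Fin B → ZMod p) → ℂ)
    (q : (Fin B → ZMod p) → ℝ) (hqV : ∀ z, ((q z : ℝ) : ℂ) = ∑ l ∈ V, c l * ch l z) :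
    0 ≤ ∑ z, PDz S z * q z ^ 2 := by
  classical
  have h1 : ∑ z, PDz S z * q z ^ 2 =
      (∑ z, (∑ l ∈ S.La, ZMod.stdAddChar (ip l z - S.ga l) : ℂ) *
        ((q z : ℂ) * (starRingEnd ℂ) (q z : ℂ))).re := by
    rw [Complex.re_sum]
    refine sum_congr rfl fun z _ => ?_
    rw [Complex.mul_conj, Complex.normSq_ofReal, Complex.re_mul_ofReal, Complex.re_sum]
    unfold PDz
    ring
  have h2 : (∑ z, (∑ l ∈ S.La, ZMod.stdAddChar (ip l z - S.ga l) : ℂ) *
        ((q z : ℂ) * (starRingEnd ℂ) (q z : ℂ))) =
      (p : ℂ) ^ B * ∑ x ∈ V, ∑ y ∈ V, if y - x ∈ S.La then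
        c x * (starRingEnd ℂ) (c y) * ZMod.stdAddChar (- S.ga (y - x)) else 0 := by
    calc (∑ z, (∑ l ∈ S.La, ZMod.stdAddChar (ip l z - S.ga l) : ℂ) *
        ((q z : ℂ) * (starRingEnd ℂ) (q z : ℂ)))
        = ∑ z, ∑ l ∈ S.La, ∑ x ∈ V, ∑ y ∈ V,
            c x * (starRingEnd ℂ) (c y) * ZMod.stdAddChar (- S.ga l) * ch (l + x - y) z := by
          refine sum_congr rfl fun z _ => ?_
          rw [sum_mul]
          refine sum_congr rfl fun l _ => ?_
          rw [hqV z, map_sum, sum_mul_sum, mul_sum]
          refine sum_congr rfl fun x _ => ?_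
          rw [mul_sum]
          refine sum_congr rfl fun y _ => ?_
          rw [map_mul, conj_ch, sub_eq_add_neg, AddChar.map_add_eq_mul]
          have h3 : ch (l + x - y) z = ZMod.stdAddChar (ip l z) * ch x z * ch (-y) z := by
            rw [sub_eq_add_neg, ch_add_left, ch_add_left]
            rfl
          rw [h3]
          ring
      _ = ∑ x ∈ V, ∑ y ∈ V, ∑ l ∈ S.La,
            c x * (starRingEnd ℂ) (c y) * ZMod.stdAddChar (- S.ga l) * ∑ z, ch (l + x - y) z := by
          simp only [mul_sum]
          rw [sum_comm]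
          rw [sum_comm' (s := S.La) (t := fun _ => univ) (t' := univ) (s' := fun _ => S.La)
            (by simp)]
          rw [sum_comm]
          simp only [sum_comm (s := univ) (t := V)]
          rw [sum_comm]
          refine sum_congr rfl fun x _ => ?_
          rw [sum_comm]
          
      _ = _ := by
          rw [mul_sum]
          refine sum_congr rfl fun x _ => ?_
          rw [mul_sum]
          refine sum_congr rfl fun y _ => ?_
          have h4 : ∀ l ∈ S.La, c x * (starRingEnd ℂ) (c y) * ZMod.stdAddChar (- S.ga l) *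
              ∑ z, ch (l + x - y) z = if l = y - x then
                (p : ℂ) ^ B * (c x * (starRingEnd ℂ) (c y) * ZMod.stdAddChar (- S.ga (y - x)))
                else 0 := by
            intro l _
            rw [sum_ch]
            by_cases h : l = y - x
            · rw [if_pos h, if_pos (by rw [h]; abel), h]
              ring
            · rw [if_neg h, if_neg, mul_zero]
              intro h'
              apply h
              rw [eq_sub_iff_add_eq]
              exact sub_eq_zero.mp h'
          rw [sum_congr rfl h4, sum_ite_eq']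
          by_cases h : y - x ∈ S.La
          · rw [if_pos h, if_pos h]
          · rw [if_neg h, if_neg h, mul_zero]
  rw [h1, h2]
  have hpB : ((p : ℂ) ^ B) = (((p : ℝ) ^ B : ℝ) : ℂ) := by push_cast; rfl
  rw [hpB, Complex.re_ofReal_mul]
  refine mul_nonneg (by positivity) ?_
  refine cocycle_nonneg V (fun x y => y - x ∈ S.La) c (fun x y => ZMod.stdAddChar (- S.ga (y - x)))
    ?_ ?_ ?_ ?_
  · intro x _
    simpa using S.zero_mem
  · intro x _ y _ h
    have := S.neg_mem _ h
    rwa [neg_sub] at this
  · intro x hx y _ z hz h h'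
    have e : z - x = (z - y) + (y - x) := by abel
    rw [e]
    exact S.add_mem _ h' _ h (by rw [← e]; exact hsup x hx z hz)
  · intro x hx y hy z hz h h'
    have hga : S.ga (z - x) = S.ga (z - y) + S.ga (y - x) := by
      have e : z - x = (z - y) + (y - x) := by abel
      have hyx : y - x ∈ S.La := by
        have e' : y - x = (z - x) + (-(z - y)) := by abel
        rw [e']
        exact S.add_mem _ h _ (S.neg_mem _ h') (by rw [← e']; exact hsup x hx y hy)
      rw [e]
      exact S.add_ga _ h' _ hyx (by rw [← e]; exact hsup x hx z hz)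
    rw [conj_std, ← AddChar.map_add_eq_mul, hga]
    congr 1
    ring

/-- LASA -/
theorem pf_LASA : T_LASA := by
  intro p B d hp S UU hU F hF
  classical
  have h : ∀ T : Finset (Fin B), ∃ c : (Fin B → ZMod p) → ℂ, T ∈ UU →
      (∀ l, c l ≠ 0 → supp l ⊆ T) ∧ ∀ z, ((F T z : ℝ) : ℂ) = ∑ l, c l * ch l z := by
    intro T
    by_cases hT : T ∈ UU
    · obtain ⟨c, hc⟩ := four_sub73 (F T) T (hF T hT)
      exact ⟨c, fun _ => hc⟩
    · exact ⟨0, fun h => absurd h hT⟩
  choose c hc using h
  refine las_gen73 p B d S (univ.filter (fun l => ∃ T ∈ UU, supp l ⊆ T)) ?_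
    (fun l => ∑ T ∈ UU, c T l) (fun z => ∑ T ∈ UU, F T z) ?_
  · intro x hx y hy
    obtain ⟨T, hT, hxT⟩ := (mem_filter.mp hx).2
    obtain ⟨T', hT', hyT⟩ := (mem_filter.mp hy).2
    refine le_trans (card_le_card ?_) (hU T hT T' hT')
    intro i hi
    simp only [supp, mem_filter, mem_univ, true_and, Pi.sub_apply] at hi
    by_cases hxi : x i = 0
    · refine mem_union_right _ (hyT ?_)
      simp only [supp, mem_filter, mem_univ, true_and]
      intro h
      exact hi (by rw [hxi, h, sub_zero])
    · refine mem_union_left _ (hxT ?_)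
      simpa [supp] using hxi
  · intro z
    rw [Complex.ofReal_sum]
    have h1 : ∀ T ∈ UU, ((F T z : ℝ) : ℂ) = ∑ l, c T l * ch l z := fun T hT => (hc T hT).2 z
    rw [sum_congr rfl h1, sum_comm]
    symm
    rw [sum_filter]
    refine sum_congr rfl fun l _ => ?_
    by_cases hl : ∃ T ∈ UU, supp l ⊆ T
    · rw [if_pos hl, sum_mul]
    · rw [if_neg hl]
      symm
      refine sum_eq_zero fun T hT => ?_
      have : c T l = 0 := by
        by_contra h
        exact hl ⟨T, hT, (hc T hT).1 l h⟩
      rw [this, zero_mul]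

end Pool.Agent.H70.UN
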