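import Pool.Agent.H70.UN.Targets2

/-!
# Row NUMX of `uni_modules` (helper73, MP_c62aed_lc): the sum of the high parts
-/

namespace Pool.Agent.H70.UN

open Matrix Finset H43.PS

/-- the high part of one choice, without the trace -/
theorem numx_pow73 {β : Type} [Fintype β] (p κ : ℝ) (N q : ℕ) (w : β → ℝ) (hp : 1 < p)
    (hq : 1 < q) (hcard : Fintype.card β = q ^ N) (hw : ∀ b, 0 ≤ w b) (hwκ : ∀ b, w b ≤ κ)
    (hW : 0 < ∑ b, w b) (b : β) :
    (w b / ∑ b', w b') ^ (1 / (2 * p)) ≤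
      (κ / av w) ^ (1 / (2 * p)) * ((q : ℝ) ^ N) ^ (-(1 / (2 * p))) := by
  have hqN : (0 : ℝ) < (q : ℝ) ^ N := pow_pos (by exact_mod_cast (by omega : 0 < q)) N
  have hav : av w = ((q : ℝ) ^ N)⁻¹ * ∑ b, w b := by
    unfold av
    rw [hcard]
    push_cast
    rfl
  have hav0 : 0 < av w := by rw [hav]; positivity
  have hκ : 0 ≤ κ := (hw b).trans (hwκ b)
  have h1 : w b / ∑ b', w b' ≤ (κ / av w) * ((q : ℝ) ^ N)⁻¹ := by
    rw [hav]
    rw [show κ / (((q : ℝ) ^ N)⁻¹ * ∑ b, w b) * ((q : ℝ) ^ N)⁻¹ = κ / ∑ b, w b by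
      field_simp]
    exact div_le_div_of_nonneg_right (hwκ b) hW.le
  have he : 0 ≤ 1 / (2 * p) := by positivity
  calc (w b / ∑ b', w b') ^ (1 / (2 * p)) ≤ ((κ / av w) * ((q : ℝ) ^ N)⁻¹) ^ (1 / (2 * p)) :=
        Real.rpow_le_rpow (div_nonneg (hw b) hW.le) h1 he
    _ = (κ / av w) ^ (1 / (2 * p)) * ((q : ℝ) ^ N) ^ (-(1 / (2 * p))) := by
        rw [Real.mul_rpow (by positivity) (by positivity), Real.inv_rpow hqN.le,
          Real.rpow_neg hqN.le]

/-- the trace in terms of the power trace -/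
theorem numx_tr73 (Q p R r t tr : ℝ) (N : ℕ) (hQ : 1 ≤ Q) (hp : 1 < p) (hr : 1 ≤ r) (hrR : r ≤ R)
    (ht : 0 ≤ t) (h : tr ≤ ((Q + 1) ^ N * r) ^ (1 - 1 / p) * t ^ (1 / p)) :
    tr ≤ (Q + 1) ^ N * R ^ (p - 1) * t ^ (1 / p) := by
  refine h.trans (mul_le_mul_of_nonneg_right ?_ (Real.rpow_nonneg ht _))
  have hp0 : 0 < p := by linarith
  have h1 : 1 - 1 / p ≤ 1 := by
    have : 0 < 1 / p := by positivity
    linarith
  have h0 : 0 ≤ 1 - 1 / p := by
    rw [sub_nonneg, div_le_one hp0]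
    exact hp.le
  have h2 : 1 - 1 / p ≤ p - 1 := by
    have h3 : 1 - 1 / p = (p - 1) / p := by field_simp
    rw [h3, div_le_iff₀ hp0]
    nlinarith
  have hQ1 : (1 : ℝ) ≤ (Q + 1) ^ N := one_le_pow₀ (by linarith)
  rw [Real.mul_rpow (by positivity) (by linarith)]
  refine mul_le_mul ?_ ?_ (Real.rpow_nonneg (by linarith) _) (by positivity)
  · calc ((Q + 1) ^ N) ^ (1 - 1 / p) ≤ ((Q + 1) ^ N) ^ (1 : ℝ) :=
          Real.rpow_le_rpow_of_exponent_le hQ1 h1
      _ = (Q + 1) ^ N := Real.rpow_one _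
  · calc r ^ (1 - 1 / p) ≤ r ^ (p - 1) := Real.rpow_le_rpow_of_exponent_le hr h2
      _ ≤ R ^ (p - 1) := Real.rpow_le_rpow (by linarith) hrR (by linarith)

/-- Jensen's inequality and the bound of the total power trace -/
theorem numx_jen73 {β : Type} [Fintype β] (Q p LAM r Φ : ℝ) (N : ℕ) (w t : β → ℝ) (hQ : 1 ≤ Q)
    (hp : 1 < p) (hLAM : 1 ≤ LAM) (hr : 1 ≤ r) (hw : ∀ b, 0 ≤ w b) (hW : 0 < ∑ b, w b)
    (ht : ∀ b, 0 ≤ t b) (hsum : ∑ b, (w b / ∑ b', w b') * t b ≤ KU Q p ^ N * Φ)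
    (hΦ : Φ ≤ (r * LAM) ^ (p - 1) * r) :
    ∑ b, (w b / ∑ b', w b') * t b ^ (1 / p) ≤ KU Q p ^ N * (r * LAM ^ (p - 1)) := by
  have hp0 : 0 < p := by linarith
  have hx0 : 0 ≤ 1 / p := by positivity
  have hx1 : 1 / p ≤ 1 := by
    rw [div_le_one hp0]
    exact hp.le
  have hconc := (Real.concaveOn_rpow hx0 hx1).le_map_sum (t := (univ : Finset β))
    (w := fun b => w b / ∑ b', w b') (p := t) (fun b _ => div_nonneg (hw b) hW.le)
    (by rw [← sum_div, div_self hW.ne']) (fun b _ => ht b)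
  simp only [smul_eq_mul] at hconc
  have hKU : 1 ≤ KU Q p := by
    unfold KU
    have : (1 : ℝ) ≤ (Q + 1) ^ (p - 1) := Real.one_le_rpow (by linarith) (by linarith)
    linarith
  have hKUN : (1 : ℝ) ≤ KU Q p ^ N := one_le_pow₀ hKU
  have hs0 : 0 ≤ ∑ b, (w b / ∑ b', w b') * t b :=
    sum_nonneg fun b _ => mul_nonneg (div_nonneg (hw b) hW.le) (ht b)
  calc ∑ b, (w b / ∑ b', w b') * t b ^ (1 / p)
      ≤ (∑ b, (w b / ∑ b', w b') * t b) ^ (1 / p) := hconc
    _ ≤ (KU Q p ^ N * ((r * LAM) ^ (p - 1) * r)) ^ (1 / p) :=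
        Real.rpow_le_rpow hs0 (hsum.trans (mul_le_mul_of_nonneg_left hΦ (by positivity))) hx0
    _ = (KU Q p ^ N) ^ (1 / p) * ((r * LAM) ^ (p - 1) * r) ^ (1 / p) :=
        Real.mul_rpow (by positivity) (by positivity)
    _ ≤ KU Q p ^ N * (r * LAM ^ (p - 1)) := by
        refine mul_le_mul ?_ ?_ (by positivity) (by positivity)
        · calc (KU Q p ^ N) ^ (1 / p) ≤ (KU Q p ^ N) ^ (1 : ℝ) :=
                Real.rpow_le_rpow_of_exponent_le hKUN hx1
            _ = KU Q p ^ N := Real.rpow_one _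
        · have h1 : (r * LAM) ^ (p - 1) * r = r ^ p * LAM ^ (p - 1) := by
            rw [Real.mul_rpow (by linarith) (by linarith)]
            have h2 : r ^ p = r ^ (p - 1) * r := by
              conv_lhs => rw [show p = (p - 1) + 1 by ring]
              rw [Real.rpow_add (by linarith), Real.rpow_one]
            rw [h2]
            ring
          rw [h1, Real.mul_rpow (by positivity) (by positivity), ← Real.rpow_mul (by linarith),
            mul_one_div_cancel hp0.ne', Real.rpow_one]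
          refine mul_le_mul_of_nonneg_left ?_ (by linarith)
          have h3 : (1 : ℝ) ≤ LAM ^ (p - 1) := Real.one_le_rpow hLAM (by linarith)
          calc (LAM ^ (p - 1)) ^ (1 / p) ≤ (LAM ^ (p - 1)) ^ (1 : ℝ) :=
                Real.rpow_le_rpow_of_exponent_le h3 hx1
            _ = LAM ^ (p - 1) := Real.rpow_one _

theorem numx_sqrt73 (p κ y : ℝ) (hp : 1 < p) (hy : 0 < y) (hκ : y ≤ κ) :
    y * (κ / y) ^ (1 / (2 * p)) ≤ Real.sqrt (κ * y) := by
  have h1 : 1 ≤ κ / y := (one_le_div hy).mpr hκ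
  have h2 : 1 / (2 * p) ≤ 1 / 2 := by
    apply one_div_le_one_div_of_le (by norm_num)
    linarith
  calc y * (κ / y) ^ (1 / (2 * p)) ≤ y * (κ / y) ^ ((1 : ℝ) / 2) :=
        mul_le_mul_of_nonneg_left (Real.rpow_le_rpow_of_exponent_le h1 h2) hy.le
    _ = Real.sqrt (κ * y) := by
        rw [← Real.sqrt_eq_rpow]
        symm
        rw [Real.sqrt_eq_iff_mul_self_eq (by nlinarith) (by positivity)]
        have h3 : Real.sqrt (κ / y) * Real.sqrt (κ / y) = κ / y :=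
          Real.mul_self_sqrt (by linarith)
        symm
        calc y * Real.sqrt (κ / y) * (y * Real.sqrt (κ / y))
            = y ^ 2 * (Real.sqrt (κ / y) * Real.sqrt (κ / y)) := by ring
          _ = κ * y := by rw [h3]; field_simp

/-- NUMX -/
theorem pf_NUMX : T_NUMX := by
  intro β _ Q p K LAM R κ r Φ N d q w t tr hQ hp hp2 hq hK hLAM hr hrR hcard hw hwκ hW ht htr
    htrb hsum _ hΦ
  have hp0 : 0 < p := by linarith
  have hqN : (0 : ℝ) < (q : ℝ) ^ N := pow_pos (by exact_mod_cast (by omega : 0 < q)) N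
  have hav : av w = ((q : ℝ) ^ N)⁻¹ * ∑ b, w b := by
    unfold av
    rw [hcard]
    push_cast
    rfl
  have hav0 : 0 < av w := by rw [hav]; positivity
  have havκ : av w ≤ κ := by
    rw [hav, inv_mul_le_iff₀ hqN]
    calc ∑ b, w b ≤ ∑ _b : β, κ := sum_le_sum fun b _ => hwκ b
      _ = (q : ℝ) ^ N * κ := by
          rw [sum_const, card_univ, hcard, nsmul_eq_mul]
          push_cast
          rfl
  set c1 : ℝ := (κ / av w) ^ (1 / (2 * p)) * ((q : ℝ) ^ N) ^ (-(1 / (2 * p))) with hc1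
  set A : ℝ := 2 ^ N * (Q / (p - 1)) ^ N * Real.sqrt ((q : ℝ) ^ (N - d)) * K ^ N with hA
  have hQp : 0 < Q / (p - 1) := div_pos (by linarith) (by linarith)
  have hA0 : 0 ≤ A := by
    rw [hA]
    have := pow_nonneg hQp.le N
    have h2 : 0 ≤ K ^ N := pow_nonneg (by linarith) N
    positivity
  have hc10 : 0 ≤ c1 := by
    rw [hc1]
    have : 0 ≤ κ / av w := div_nonneg (hav0.le.trans havκ) hav0.le
    positivity
  have hstep : ∀ b, HX Q p K (w b / ∑ b', w b') N d q * (tr b * w b) ≤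
      A * c1 * ((Q + 1) ^ N * R ^ (p - 1)) * (∑ b', w b') *
        ((w b / ∑ b', w b') * t b ^ (1 / p)) := by
    intro b
    have h1 := numx_pow73 p κ N q w hp hq hcard hw hwκ hW b
    have h2 := numx_tr73 Q p R r (t b) (tr b) N hQ hp hr hrR (ht b) (htrb b)
    have h3 : HX Q p K (w b / ∑ b', w b') N d q = A * (w b / ∑ b', w b') ^ (1 / (2 * p)) := by
      unfold HX
      rw [hA]
    have h4 : A * c1 * ((Q + 1) ^ N * R ^ (p - 1)) * (∑ b', w b') *
        ((w b / ∑ b', w b') * t b ^ (1 / p)) =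
        (A * c1) * (((Q + 1) ^ N * R ^ (p - 1) * t b ^ (1 / p)) * w b) := by
      field_simp
    rw [h3, h4]
    refine mul_le_mul (mul_le_mul_of_nonneg_left h1 hA0) (mul_le_mul_of_nonneg_right h2 (hw b))
      (mul_nonneg (htr b) (hw b)) (mul_nonneg hA0 hc10)
  have hj := numx_jen73 Q p LAM r Φ N w t hQ hp hLAM hr hw hW ht hsum hΦ
  have hsq := numx_sqrt73 p κ (av w) hp hav0 havκ
  have hR0 : 0 ≤ R ^ (p - 1) := Real.rpow_nonneg (by linarith) _
  have hQN : 0 ≤ (Q + 1) ^ N := pow_nonneg (by linarith) N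
  have hL0 : 0 ≤ LAM ^ (p - 1) := Real.rpow_nonneg (by linarith) _
  have hKU0 : 0 ≤ KU Q p ^ N := by
    unfold KU
    have : 0 ≤ (Q + 1) ^ (p - 1) := Real.rpow_nonneg (by linarith) _
    positivity
  calc av (fun b => HX Q p K (w b / ∑ b', w b') N d q * (tr b * w b))
      = ((q : ℝ) ^ N)⁻¹ * ∑ b, HX Q p K (w b / ∑ b', w b') N d q * (tr b * w b) := by
        unfold av
        rw [hcard]
        push_cast
        rfl
    _ ≤ ((q : ℝ) ^ N)⁻¹ * ∑ b, A * c1 * ((Q + 1) ^ N * R ^ (p - 1)) * (∑ b', w b') *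
        ((w b / ∑ b', w b') * t b ^ (1 / p)) :=
        mul_le_mul_of_nonneg_left (sum_le_sum fun b _ => hstep b) (by positivity)
    _ = A * c1 * ((Q + 1) ^ N * R ^ (p - 1)) * av w *
        ∑ b, (w b / ∑ b', w b') * t b ^ (1 / p) := by
        rw [← mul_sum, hav]
        ring
    _ ≤ A * c1 * ((Q + 1) ^ N * R ^ (p - 1)) * av w * (KU Q p ^ N * (r * LAM ^ (p - 1))) :=
        mul_le_mul_of_nonneg_left hj
          (mul_nonneg (mul_nonneg (mul_nonneg hA0 hc10) (mul_nonneg hQN hR0)) hav0.le)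
    _ = (A * ((Q + 1) ^ N * R ^ (p - 1)) * (KU Q p ^ N * (r * LAM ^ (p - 1))) *
        ((q : ℝ) ^ N) ^ (-(1 / (2 * p)))) * (av w * (κ / av w) ^ (1 / (2 * p))) := by
        rw [hc1]
        ring
    _ ≤ (A * ((Q + 1) ^ N * R ^ (p - 1)) * (KU Q p ^ N * (r * LAM ^ (p - 1))) *
        ((q : ℝ) ^ N) ^ (-(1 / (2 * p)))) * Real.sqrt (κ * av w) := by
        refine mul_le_mul_of_nonneg_left hsq (mul_nonneg (mul_nonneg (mul_nonneg hA0
          (mul_nonneg hQN hR0)) (mul_nonneg hKU0 (mul_nonneg (by linarith) hL0))) ?_)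
        exact Real.rpow_nonneg hqN.le _
    _ = E1 Q p K LAM R N d q * (r * Real.sqrt (κ * av w)) := by
        unfold E1
        rw [hA, Real.mul_rpow (by linarith : 0 ≤ LAM) (by linarith : 0 ≤ R), mul_pow, mul_pow,
          mul_pow, mul_pow]
        ring

end Pool.Agent.H70.UN
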